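import Pool.Agent.H.MP_4f0cf1_nt.C
import Pool.Agent.H.MP_0c110c_nt.C

set_option autoImplicit false
set_option linter.unusedSectionVars false
open Finset Polynomial Complex Real

namespace Pool.Agent.H.MP_e449c6_nt

open MP_4f0cf1_nt Lib.helper20.Quad

variable {p n : ℕ} [Fact p.Prime]

/-- The standard additive character. -/
noncomputable def w (a : ZMod p) : ℂ := ZMod.stdAddChar a

/-- The Gauss sum. -/
noncomputable def tau (p : ℕ) : ℂ := (if p % 4 = 1 then 1 else I) * √p

/-- The character, completed by the value one at zero. -/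
noncomputable def u (a : ZMod p) : ℂ := c ℂ a + if a = 0 then 1 else 0

lemma w_add (a b : ZMod p) : w (a + b) = w a * w b := AddChar.map_add_eq_mul _ _ _

@[simp] lemma w_zero : w (0 : ZMod p) = 1 := AddChar.map_zero_eq_one _

lemma w_pow (a : ZMod p) (k : ℕ) : w a ^ k = w (a * (k : ZMod p)) := by
  rw [w, ← AddChar.map_nsmul_eq_pow, nsmul_eq_mul, mul_comm, w]

lemma w_nat (k : ℕ) : w (k : ZMod p) = cexp (2 * π * I * (k / p : ℝ)) := by
  rw [w, ← Int.cast_natCast, ZMod.stdAddChar_coe]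
  congr 1
  push_cast; ring

lemma w_neg (a : ZMod p) : w (-a) * w a = 1 := by rw [← w_add, neg_add_cancel, w_zero]

lemma w_conj (a : ZMod p) : (starRingEnd ℂ) (w a) = w (-a) :=
  (AddChar.map_neg_eq_conj _ _).symm

lemma w_inj {a b : ZMod p} (h : w a = w b) : a = b := ZMod.injective_stdAddChar h

lemma u_sq (a : ZMod p) : u a * u a = 1 := by
  by_cases h : a = 0
  · simp [u, h]
  · simp [u, h, c_sq h]

lemma c_pm {a : ZMod p} (h : a ≠ 0) : c ℂ a = 1 ∨ c ℂ a = -1 := mul_self_eq_one_iff.1 (c_sq h)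

lemma four_one (b : ZMod p) : ∑ a, w (a * b) = if b = 0 then (p : ℂ) else 0 := by
  simp only [w]
  rw [AddChar.sum_mulShift b (ZMod.isPrimitive_stdAddChar p), ZMod.card]; split_ifs <;> simp

lemma reidx {M : Type*} [CommMonoid M] {b : ZMod p} (hb : b ≠ 0) (f : ZMod p → M) :
    ∏ a ∈ univ.erase 0, f (a * b) = ∏ a ∈ univ.erase 0, f a :=
  prod_equiv (Equiv.mulRight₀ b hb) (by simp [hb]) fun _ _ => rfl

lemma refl_prod {ι : Type*} (S : Finset ι) (r : ι → ℂ) :
    reflect #S (∏ a ∈ S, (X - C (r a))) = ∏ a ∈ S, (1 + C (-r a) * X) := by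
  classical
  induction S using Finset.induction_on with
  | empty => simp
  | insert a S ha ih =>
    rw [prod_insert ha, prod_insert ha, card_insert_of_notMem ha, add_comm, reflect_mul _ _
      (natDegree_X_sub_C_le _) (natDegree_finsetProd_X_sub_C_eq_card _ _).le, ih]
    simp [sub_eq_add_neg]

variable (hp : p = 2 * n + 1)
include hp

lemma four_c (b : ZMod p) : ∑ a, c ℂ a * w (a * b) = c ℂ b * tau p := by
  have := gsum (p := p) (by omega) b.val
  rw [c_leg, Int.cast_natCast (R := ZMod p), ZMod.natCast_zmod_val] at this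
  rw [tau, ← this, sum_zmod]
  refine sum_congr rfl fun a _ => ?_
  rw [← ZMod.natCast_zmod_val b, ← Nat.cast_mul, w_nat, c_leg, ZMod.val_cast_of_lt b.val_lt]
  congr 2
  · simp
  · push_cast; ring

lemma four_u (b : ZMod p) : ∑ a, u a * w (a * b) = 1 + c ℂ b * tau p := by
  simp [u, add_mul, sum_add_distrib, four_c hp, add_comm]

lemma tau_sq : tau p * tau p = c ℂ (-1 : ZMod p) * p := by
  have h2 : (√p : ℂ) * √p = p := by exact_mod_cast Real.mul_self_sqrt (Nat.cast_nonneg p)
  rw [tau]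
  split_ifs with h
  · rw [c_m1 h, c_one]; linear_combination h2
  · rw [c_m3 (by omega), c_one]; linear_combination (I * I) * h2 + p * I_mul_I

lemma eps_pow : c ℂ (-1 : ZMod p) ^ n = c ℂ (-1 : ZMod p) := by
  by_cases h : p % 4 = 1
  · simp [c_m1 h]
  · rw [c_m3 (by omega), c_one, (Nat.odd_iff.2 (by omega)).neg_one_pow]

lemma half_prod' {M : Type*} [CommMonoid M] (g : ZMod p → M) :
    ∏ a ∈ univ.erase 0, g a = ∏ j : Fin n, g (e p j) * g (-e p j) := by
  have := half (M := Additive M) hp fun a => if a = 0 then 0 else Additive.ofMul (g a)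
  rw [← add_sum_erase _ _ (mem_univ 0), sum_congr rfl (g := fun a => Additive.ofMul (g a))
    fun a ha => if_neg (ne_of_mem_erase ha)] at this
  simpa [e_ne hp, ← ofMul_prod, ← ofMul_mul] using this

lemma two_ne : (2 : ZMod p) ≠ 0 := by
  simpa using nz hp two_pos (by have := (Fact.out : p.Prime).two_le; omega)

lemma prod_sub : ∏ a ∈ univ.erase (0 : ZMod p), (1 - w a) = p := by
  have h8 : IsPrimitiveRoot (w (1 : ZMod p)) (2 * n + 1) := by
    have := w_nat (p := p) 1
    rw [← hp, Nat.cast_one] at *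
    convert Complex.isPrimitiveRoot_exp p (Fact.out : p.Prime).ne_zero using 1
    rw [this]; congr 1; push_cast; ring
  have h1 := sum_zmod (M := Additive ℂ) fun a : ZMod p =>
    if a = 0 then 0 else Additive.ofMul (1 - w a)
  rw [← add_sum_erase _ _ (mem_univ 0), sum_congr rfl (g := fun a => Additive.ofMul (1 - w a))
    fun a ha => if_neg (ne_of_mem_erase ha), congrArg range hp, sum_range_succ',
    sum_congr rfl (s₁ := range (2 * n)) (g := fun k => Additive.ofMul (1 - w (1 : ZMod p) ^ (k + 1)))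
      fun k hk => by
        rw [if_neg (nz hp (by omega) (by have := mem_range.1 hk; omega)), w_pow, one_mul]] at h1
  have h2 := h8.prod_one_sub_pow_eq_order
  rw [show (p : ℂ) = (2 * n : ℕ) + 1 by simp [hp], ← h2]
  simpa [← ofMul_prod] using h1

lemma prod_add' : ∏ a ∈ univ.erase (0 : ZMod p), (1 + w a) = 1 := by
  have h1 := reidx (two_ne hp) fun a => 1 - w a
  rw [prod_congr rfl (g := fun a => (1 - w a) * (1 + w a)) fun a _ => by
    rw [mul_two, w_add]; ring, prod_mul_distrib, prod_sub hp] at h1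
  exact mul_left_cancel₀ (Nat.cast_ne_zero.2 (by omega)) (h1.trans (mul_one _).symm)

lemma rel (S : Finset ℕ) (ev od : ℕ → ℂ) (H : ∀ a : ZMod p, a ≠ 0 →
    ∑ l ∈ S, ev l * w a ^ (2 * l) + c ℂ a * ∑ l ∈ S, od l * w a ^ (2 * l + 1) = 0) (m : ZMod p) :
    ∑ l ∈ S, ev l * (if (2 * l : ZMod p) - m = 0 then (p : ℂ) else 0) +
      ∑ l ∈ S, od l * (1 + c ℂ (2 * l + 1 - m : ZMod p) * tau p) =
        ∑ l ∈ S, ev l + ∑ l ∈ S, od l ∧
    ∑ l ∈ S, ev l * (1 + c ℂ (2 * l - m : ZMod p) * tau p) +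
      ∑ l ∈ S, od l * (if (2 * l + 1 : ZMod p) - m = 0 then (p : ℂ) else 0) =
        ∑ l ∈ S, ev l + ∑ l ∈ S, od l := by
  have e : ∀ (a : ZMod p) (k : ℕ), w a ^ k * w (-(a * m)) = w (a * (k - m) : ZMod p) := fun a k => by
    rw [w_pow, ← w_add]
    congr 1; ring
  simp only [← four_one, ← four_u hp, mul_sum]
  constructor <;> rw [sum_comm, sum_comm (s := S), ← sum_add_distrib, sum_eq_single 0 (fun a _ ha =>
    ?_) (by simp)]
  · simp [u]
  · have := congrArg (· * w (-(a * m))) (H a ha)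
    simp only [add_mul, mul_assoc, sum_mul, mul_sum, e, zero_mul] at this
    push_cast at this
    simpa only [mul_left_comm (c ℂ a), u, if_neg ha, add_zero] using this
  · simp [u]
  · have := congrArg (c ℂ a * · * w (-(a * m))) (H a ha)
    simp only [mul_add, ← mul_assoc, c_sq ha, one_mul, mul_zero, zero_mul] at this
    simp only [add_mul, mul_assoc, sum_mul, mul_sum, e] at this
    push_cast at this
    simpa only [mul_left_comm (c ℂ a), u, if_neg ha, add_zero] using this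

lemma poly : ∃ ev od : ℕ → ℂ, ev 0 = c ℂ (-1 : ZMod p) ∧ od 0 = -tau p ∧ ev n = 1 ∧
    od (n - 1) = -tau p ∧ 2 * ev (n - 1) = c ℂ (-1 : ZMod p) * p + 1 ∧ (∀ l, n < l → ev l = 0) ∧
    (∀ l, n ≤ l → od l = 0) ∧ ∑ l ∈ range (n + 1), ev l + ∑ l ∈ range (n + 1), od l =
      ∏ a ∈ univ.erase (0 : ZMod p), (1 - c ℂ a * w a) ∧
    ∑ l ∈ range (n + 1), ev l - ∑ l ∈ range (n + 1), od l =
      ∏ a ∈ univ.erase (0 : ZMod p), (1 + c ℂ a * w a) ∧
    ∀ a : ZMod p, a ≠ 0 → ∑ l ∈ range (n + 1), ev l * w a ^ (2 * l) +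
      c ℂ a * ∑ l ∈ range (n + 1), od l * w a ^ (2 * l + 1) = 0 := by
  have hn : 0 < n := by have := (Fact.out : p.Prime).two_le; omega
  have hc : #(univ.erase (0 : ZMod p)) = 2 * n := by
    rw [card_erase_of_mem (mem_univ _), card_univ, ZMod.card]; omega
  obtain ⟨E, hE⟩ : ∃ E : ℂ[X], E = ∏ a ∈ univ.erase (0 : ZMod p), (X - C (c ℂ a * w a)) := ⟨_, rfl⟩
  have hd : E.natDegree = 2 * n := by rw [hE, natDegree_finsetProd_X_sub_C_eq_card, hc]
  have m1 := c_sq (R := ℂ) (a := (-1 : ZMod p)) (by simp)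
  have p3 : ∀ a : ZMod p, a ≠ 0 → c ℂ a * w a * (c ℂ (-a) * w (-a)) = c ℂ (-1 : ZMod p) :=
    fun a ha => by
      rw [c_neg]
      linear_combination c ℂ (-1 : ZMod p) * (w (-a) * w a * c_sq (R := ℂ) ha + w_neg a)
  have s1 : ∑ a ∈ univ.erase (0 : ZMod p), c ℂ a * w a = tau p := by
    simpa using four_c hp 1
  have s2 : ∑ a ∈ univ.erase (0 : ZMod p), (-(c ℂ a * w a)) ^ 2 = -1 := by
    rw [sum_congr rfl (g := fun a => w (a * 2)) fun a ha => by
      rw [mul_two, w_add]; linear_combination w a * w a * c_sq (R := ℂ) (ne_of_mem_erase ha)]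
    simp [four_one, two_ne hp]
  have p4 : E * C (c ℂ (-1 : ZMod p)) = ∏ a ∈ univ.erase (0 : ZMod p),
      (1 + C (-c ℂ (-1 : ZMod p) * (c ℂ a * w a)) * X) := by
    rw [← eps_pow hp, hE, half_prod' hp, half_prod' hp, map_pow, ← Fin.prod_const,
      ← prod_mul_distrib, eps_pow hp]
    refine prod_congr rfl fun j _ => ?_
    have b1 := congrArg C (p3 _ (e_ne hp j))
    have b2 := congrArg C m1
    simp only [map_mul, map_one, map_neg] at b1 b2 ⊢
    linear_combination (C (c ℂ (-1 : ZMod p)) - C (c ℂ (-1 : ZMod p)) ^ 2 * X ^ 2) * b1 +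
      (1 - C (c ℂ (-1 : ZMod p)) * X ^ 2) * b2
  obtain ⟨c0, c1, -⟩ := MP_0c110c_nt.low (univ.erase (0 : ZMod p))
    fun a => -c ℂ (-1 : ZMod p) * (c ℂ a * w a)
  obtain ⟨d0, d1, d2, -⟩ := MP_0c110c_nt.low (univ.erase (0 : ZMod p)) fun a => -(c ℂ a * w a)
  rw [← p4, coeff_mul_C] at c0 c1
  rw [← refl_prod, ← hE, hc, coeff_reflect, revAt_le (by omega)] at d0 d1 d2
  rw [← mul_sum, s1] at c1
  rw [sum_neg_distrib, s1] at d1 d2
  have e1 := MP_0c110c_nt.eval_split (m := n + 1) (E := E) (by omega) (mul_one 1) 1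
  have e2 := MP_0c110c_nt.eval_split (m := n + 1) (E := E) (by omega) (u := -1) (by simp) 1
  simp only [mul_one, one_pow, one_mul] at e1 e2
  refine ⟨fun l => E.coeff (2 * l), fun l => E.coeff (2 * l + 1), ?_, ?_, d0, ?_, ?_,
    fun l hl => coeff_eq_zero_of_natDegree_lt (by omega),
    fun l hl => coeff_eq_zero_of_natDegree_lt (by omega), ?_, ?_, fun a ha => ?_⟩
  · linear_combination c ℂ (-1 : ZMod p) * c0 - E.coeff 0 * m1
  · linear_combination c ℂ (-1 : ZMod p) * c1 - (E.coeff 1 + tau p) * m1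
  · exact (congrArg E.coeff (by omega)).trans d1
  · dsimp only
    rw [show 2 * (n - 1) = 2 * n - 2 by omega]
    linear_combination d2 - s2 + tau_sq hp
  · rw [← e1, hE, eval_prod]; simp
  · have h7 := prod_neg (s := univ.erase (0 : ZMod p)) fun a => 1 + c ℂ a * w a
    rw [hc, pow_mul, neg_one_sq, one_pow, one_mul] at h7
    rw [← h7, sub_eq_add_neg, ← neg_one_mul, ← e2, hE, eval_prod]
    exact prod_congr rfl fun a _ => by simp; ring
  · refine (MP_0c110c_nt.eval_split (E := E) (by omega) (c_sq ha) _).symm.trans ?_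
    rw [hE, eval_prod]
    exact prod_eq_zero (mem_erase.2 ⟨ha, mem_univ a⟩) (by simp)

lemma E_mul : (∏ a ∈ univ.erase (0 : ZMod p), (1 - c ℂ a * w a)) *
    ∏ a ∈ univ.erase (0 : ZMod p), (1 + c ℂ a * w a) = p := by
  rw [← prod_mul_distrib, ← prod_sub hp, ← reidx (two_ne hp) fun a => 1 - w a]
  refine prod_congr rfl fun a ha => ?_
  rw [mul_two, w_add]
  linear_combination -w a * w a * c_sq (R := ℂ) (ne_of_mem_erase ha)

lemma E_exp : ∏ a ∈ univ.erase (0 : ZMod p), (1 - c ℂ a * w a) =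
    √p * cexp ((1 - c ℂ (2 : ZMod p) / 2) * ∑ a ∈ Ico 1 p, legendreSym p a *
      (Real.log (2 * Real.sin (π * (a / p))) + (π * (a / p - 1 / 2) : ℝ) * I)) := by
  have hne : ∀ a : ZMod p, a ≠ 0 → 1 - w a ≠ 0 := fun a ha h =>
    ha (w_inj ((sub_eq_zero.1 h).symm.trans w_zero.symm))
  have h1 : ∀ f : ZMod p → ℂ, ∑ a ∈ univ.erase 0, f a * Complex.log (1 - w a) = ∑ a ∈ Ico 1 p, f a *
      (Real.log (2 * Real.sin (π * (a / p))) + (π * (a / p - 1 / 2) : ℝ) * I) := fun f => by
    rw [sum_erase _ (by simp), sum_zmod, range_eq_Ico, sum_eq_sum_Ico_succ_bot (by omega)]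
    simp only [Nat.cast_zero, w_zero, sub_self, Complex.log_zero, mul_zero, zero_add]
    exact sum_congr rfl fun a ha => by rw [w_nat, log_one_sub (frac ha).1 (frac ha).2]
  have h2 : ∑ a ∈ univ.erase (0 : ZMod p), Complex.log (1 - w a) = Real.log p := by
    apply Complex.ext
    · have := congrArg (‖·‖) (prod_sub hp)
      simp only [norm_prod, Complex.norm_natCast] at this
      rw [ofReal_re, ← this, Real.log_prod fun a ha => norm_ne_zero_iff.2
        (hne a (ne_of_mem_erase ha)), re_sum]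
      simp only [Complex.log_re]
    · have := h1 fun _ => 1
      simp only [one_mul] at this
      have h3 := congrArg (Nat.cast : ℕ → ℝ) (sum_range_id_mul_two p)
      rw [range_eq_Ico, sum_eq_sum_Ico_succ_bot (by omega), show p - 1 = 2 * n by omega] at h3
      have h4 : (p : ℝ) ≠ 0 := Nat.cast_ne_zero.2 (by omega)
      rw [this, im_sum]
      simp only [add_im, ofReal_im, mul_im, ofReal_re, I_im, I_re, mul_one, mul_zero, zero_add,
        add_zero, ← mul_sum, sum_sub_distrib, ← sum_div, sum_const, Nat.card_Ico, nsmul_eq_mul]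
      push_cast at h3
      rw [show p - 1 = 2 * n by omega]
      push_cast
      field_simp
      linear_combination π / 2 * h3
  have h3 := reidx (M := Multiplicative ℂ) (two_ne hp) fun a => Multiplicative.ofAdd
    ((1 - c ℂ (2 : ZMod p) * c ℂ a) / 2 * Complex.log (1 - w a))
  simp only [← ofAdd_sum, EmbeddingLike.apply_eq_iff_eq] at h3
  have h4 := h1 (c ℂ)
  have h5 : (√p : ℂ) = cexp (Real.log p / 2) := by
    rw [← Real.exp_log (Real.sqrt_pos.2 (Nat.cast_pos.2 (by omega : 0 < p))),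
      Real.log_sqrt (Nat.cast_nonneg p)]
    push_cast; rfl
  simp only [c_leg, Int.cast_natCast, ← h4]
  rw [h5, ← Complex.exp_add, ← h2, show ∀ x y z : ℂ, x / 2 + (1 - y / 2) * z =
    z + (x / 2 - y / 2 * z) from fun x y z => by ring, sum_div, mul_sum, ← sum_sub_distrib,
    sum_congr rfl (f := fun a => _ - _) (g := fun a => (1 - c ℂ (2 : ZMod p) * c ℂ a) / 2 *
      Complex.log (1 - w a)) fun a _ => by ring, ← h3, ← sum_add_distrib, Complex.exp_sum]
  refine prod_congr rfl fun a ha => ?_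
  have ha := ne_of_mem_erase ha
  rw [c_mul, mul_left_comm, c_sq (two_ne hp), mul_one]
  rcases c_pm ha with h | h <;> rw [h]
  · simp [Complex.exp_log (hne a ha)]
  · rw [show ∀ x y : ℂ, -1 * x + (1 - -1) / 2 * y = y - x from fun x y => by ring, Complex.exp_sub,
      Complex.exp_log (hne a ha), Complex.exp_log (hne _ (mul_ne_zero ha (two_ne hp))),
      eq_div_iff (hne a ha), mul_two, w_add]
    ring

end Pool.Agent.H.MP_e449c6_nt
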