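import Pool.Agent.H.MP_e449c6_nt.A

set_option autoImplicit false
set_option linter.unusedSectionVars false
open Finset Matrix

namespace Pool.Agent.H.MP_e449c6_nt

open MP_4f0cf1_nt Lib.helper20.Quad

lemma ioi (N : ℕ) (f : ℕ → ℕ → ℂ) : ∏ i : Fin N, ∏ j ∈ Ioi i, f j i =
    ∏ j ∈ range N, ∏ i ∈ range j, f j i := by
  induction N generalizing f with
  | zero => simp
  | succ N ih =>
    rw [Fin.prod_univ_succ, Fin.prod_Ioi_zero, prod_range_succ']
    simp only [Fin.prod_Ioi_succ, prod_range_succ', prod_mul_distrib, Fin.val_succ, Fin.val_zero,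
      ih fun j i => f (j + 1) (i + 1), Fin.prod_univ_eq_prod_range (fun j => f (j + 1) 0)]
    simp [mul_comm]

lemma pairs (n : ℕ) (x : ℕ → ℂ) (h : ∀ i ≤ 2 * n, x (2 * n - i) = (starRingEnd ℂ) (x i)) :
    ∃ r : ℝ, 0 ≤ r ∧ ∏ j ∈ range (2 * n + 1), ∏ i ∈ range j, (x j + x i) =
      r * ∏ i ∈ range n, (x (2 * n - i) + x i) := by
  induction n generalizing x with
  | zero => exact ⟨1, by simp⟩
  | succ n ih =>
    obtain ⟨r, h0, hr⟩ := ih (fun i => x (i + 1)) fun i hi => by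
      rw [← h (i + 1) (by omega)]; congr 1; omega
    have h1 : ∏ i ∈ range (2 * n + 1), (x (2 * n + 2) + x (i + 1)) =
        (starRingEnd ℂ) (∏ j ∈ range (2 * n + 1), (x (j + 1) + x 0)) := by
      rw [map_prod, ← prod_range_reflect]
      refine prod_congr rfl fun i hi => ?_
      have := mem_range.1 hi
      rw [map_add, ← h _ (by omega), ← h _ (by omega), add_comm]
      congr 2; omega
    refine ⟨r * Complex.normSq (∏ j ∈ range (2 * n + 1), (x (j + 1) + x 0)),
      mul_nonneg h0 (Complex.normSq_nonneg _), ?_⟩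
    rw [show 2 * (n + 1) = 2 * n + 2 by ring, prod_range_succ, prod_range_succ' _ (2 * n + 1),
      prod_range_succ' _ (2 * n + 1), h1, prod_range_succ' _ n]
    simp only [prod_range_succ' (fun i => x _ + x i), prod_mul_distrib, hr]
    rw [prod_congr rfl (s₁ := range n) (f := fun k => x (2 * n + 2 - (k + 1)) + x (k + 1))
      (g := fun k => x (2 * n - k + 1) + x (k + 1)) fun i hi => by
        have := mem_range.1 hi
        congr 2; omega, Complex.ofReal_mul, ← Complex.mul_conj]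
    simp
    ring

lemma cof {m : ℕ} (M : Matrix (Fin (m + 1)) (Fin (m + 1)) ℂ) (v : Fin (m + 1) → ℂ) (a : ℂ)
    (h : ∀ j, ∑ k, M j k * v k = if j = 0 then a else 0) (k : Fin (m + 1)) :
    (-1) ^ (k : ℕ) * (M.submatrix Fin.succ k.succAbove).det * a = M.det * v k := by
  have h1 : M *ᵥ v = Pi.single 0 a := funext fun j => (h j).trans (by simp [Pi.single_apply])
  have h2 := congrFun (congrArg M.adjugate.mulVec h1) k
  rw [mulVec_mulVec, adjugate_mul, smul_mulVec, one_mulVec] at h2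
  simpa [adjugate_fin_succ_eq_det_submatrix] using h2.symm

variable {p n : ℕ} [Fact p.Prime]

/-- The special value of the parameter. -/
noncomputable def x0 (p : ℕ) [Fact p.Prime] : ℂ := c ℂ (2 : ZMod p) * tau p / p

/-- The shifted Toeplitz matrix. -/
noncomputable def T (p m : ℕ) [Fact p.Prime] : Matrix (Fin m) (Fin m) ℂ :=
  of fun j k => x0 p + c ℂ ((j : ℕ) - (k : ℕ) : ZMod p)

variable (hp : p = 2 * n + 1)
include hp

lemma offd (v : ZMod p → ℂ) (h0 : v 0 = 1) (h1 : ∀ a b, a ≠ 0 → b ≠ 0 → v (a * b) = v a * v b)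
    (h2 : ∀ a, v a * v a = 1) (h3 : ∀ a, v (-a) = v a) :
    ∏ a, ∏ b ∈ {a}ᶜ, (v b * w b + v a * w a) = (∏ a ∈ univ.erase 0, (1 + v a * w a)) ^ 2 *
      ∏ t ∈ (univ.erase 0).erase 1, if v t = 1 then 1 else (p : ℂ) := by
  have h4 : ∏ a ∈ univ.erase 0, v a * w a = 1 := by
    rw [half_prod' hp]
    exact prod_eq_one fun j _ => by
      rw [h3]; linear_combination w (-e p j) * w (e p j) * h2 (e p j) + w_neg (e p j)
  rw [← mul_prod_erase _ _ (mem_univ 0), prod_congr rfl (s₁ := univ.erase 0) (g := fun a =>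
    (1 + v a * w a) * ∏ t ∈ (univ.erase 0).erase 1, v a * w a * (1 + v t * w (a * (t - 1))))
    fun a ha => ?_, prod_mul_distrib, prod_comm, sq, mul_assoc]
  · congr 1
    · exact prod_congr (by ext; simp) fun _ _ => by simp [h0, add_comm]
    congr 1
    refine prod_congr rfl fun t ht => ?_
    rw [prod_mul_distrib, h4, one_mul, reidx (sub_ne_zero.2 (ne_of_mem_erase ht))
      fun a => 1 + v t * w a]
    rcases mul_self_eq_one_iff.1 (h2 t) with h | h
    · simp [h, prod_add' hp]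
    · rw [h, if_neg (by norm_num), ← prod_sub hp]
      simp [sub_eq_add_neg]
  · have ha := ne_of_mem_erase ha
    rw [← mul_prod_erase _ _ (show 0 ∈ ({a}ᶜ : Finset _) by simp [ha.symm]), h0, w_zero, one_mul]
    congr 1
    symm
    refine prod_equiv (Equiv.mulLeft₀ a ha) (by simp [ha, and_comm]) fun t ht => ?_
    simp only [Equiv.mulLeft₀_apply]
    rw [h1 _ _ ha (ne_of_mem_erase (mem_of_mem_erase ht)),
      show a * t = a + a * (t - 1) by ring, w_add]
    ring

lemma prs (v : ZMod p → ℂ) (h0 : v 0 = 1) (h1 : ∀ a b, a ≠ 0 → b ≠ 0 → v (a * b) = v a * v b)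
    (h2 : ∀ a, v a * v a = 1) (h3 : ∀ a, v (-a) = v a) (P : ℂ) (hP : P = ∏ i : Fin (2 * n + 1),
      ∏ j ∈ Ioi i, (v ((j : ℕ) - n) * w ((j : ℕ) - n : ZMod p) +
        v ((i : ℕ) - n) * w ((i : ℕ) - n : ZMod p))) :
    P * P = (∏ a ∈ univ.erase 0, (1 + v a * w a)) ^ 2 *
      ∏ t ∈ (univ.erase 0).erase 1, (if v t = 1 then 1 else (p : ℂ)) ∧
    ∃ r : ℝ, 0 ≤ r ∧ P = r * ((∏ j : Fin n, v (e p j)) *
      ∏ j : Fin n, (w (e p j) + w (-e p j))) := by
  constructor
  · have hb : Function.Bijective fun i : Fin (2 * n + 1) => ((i : ℕ) - n : ZMod p) :=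
      (Fintype.bijective_iff_injective_and_card _).2 ⟨fun i j h => Fin.ext (by
        have := congrArg ZMod.val (sub_left_injective h)
        rwa [ZMod.val_cast_of_lt (by omega), ZMod.val_cast_of_lt (by omega)] at this),
        by simp [hp]⟩
    rw [← offd hp v h0 h1 h2 h3, hP, ← prod_mul_distrib, ← hb.prod_comp]
    simp only [← prod_mul_distrib]
    refine Eq.trans ?_ ((prod_prod_Ioi_mul_eq_prod_prod_off_diag fun j i : Fin (2 * n + 1) =>
      v ((j : ℕ) - n) * w ((j : ℕ) - n : ZMod p) + v ((i : ℕ) - n) * w ((i : ℕ) - n : ZMod p)).trans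
      (prod_congr rfl fun i _ => prod_equiv (Equiv.ofBijective _ hb) (fun j => ?_) fun _ _ => rfl))
    · simp only [add_comm]
    · simp only [mem_compl, mem_singleton, Equiv.ofBijective_apply, hb.1.eq_iff]
  · obtain ⟨r, h4, h5⟩ := pairs n (fun i => v (i - n) * w (i - n : ZMod p)) fun i hi => by
      rw [map_mul, w_conj, ← h3, show -((2 * n - i : ℕ) - n : ZMod p) = i - n by
        push_cast [hi]; ring, show ((2 * n - i : ℕ) - n : ZMod p) = -(i - n) by push_cast [hi]; ring]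
      rcases mul_self_eq_one_iff.1 (h2 (i - n)) with h | h <;> simp [h]
    refine ⟨r, h4, ?_⟩
    rw [hP, ioi _ fun j i => v (j - n) * w (j - n : ZMod p) + v (i - n) * w (i - n : ZMod p), h5,
      ← prod_mul_distrib, ← prod_range_reflect, ← Fin.prod_univ_eq_prod_range fun j =>
        v ((2 * n - (n - 1 - j) : ℕ) - n) * w ((2 * n - (n - 1 - j) : ℕ) - n : ZMod p) +
          v ((n - 1 - j : ℕ) - n) * w ((n - 1 - j : ℕ) - n : ZMod p)]
    congr 1
    refine prod_congr rfl fun j _ => ?_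
    have := j.2
    rw [show 2 * n - (n - 1 - j) = n + j + 1 by omega, show ((n - 1 - j : ℕ) - n : ZMod p) = -e p j by
      rw [show n - 1 - j = n - (j + 1) by omega, e]; push_cast [show j + 1 ≤ n by omega]; ring,
      show ((n + j + 1 : ℕ) - n : ZMod p) = e p j by rw [e]; push_cast; ring, h3, mul_add]

lemma fac : (∏ i : Fin (2 * n + 1), ∏ j ∈ Ioi i, (w ((j : ℕ) - n : ZMod p) +
    w ((i : ℕ) - n : ZMod p))) = (c ℂ (-1 : ZMod p) * c ℂ (2 : ZMod p) * tau p / p) ^ n *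
      (T p n).det * ∏ i : Fin (2 * n + 1), ∏ j ∈ Ioi i, (u ((j : ℕ) - n : ZMod p) *
        w ((j : ℕ) - n : ZMod p) + u ((i : ℕ) - n : ZMod p) * w ((i : ℕ) - n : ZMod p)) := by
  have hp0 : (p : ℂ) ≠ 0 := Nat.cast_ne_zero.2 (by omega)
  obtain ⟨M, hM⟩ : ∃ M, M = of fun k m : Fin (2 * n + 1) =>
    if (m : ℕ) % 2 = 0 then (if k = m then 1 else 0)
    else (1 + c ℂ ((m : ℕ) - (k : ℕ) : ZMod p) * tau p) / p := ⟨_, rfl⟩
  have h1 : vandermonde (fun i : Fin (2 * n + 1) => u ((i : ℕ) - n : ZMod p) *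
      w ((i : ℕ) - n : ZMod p)) = vandermonde (fun i => w ((i : ℕ) - n : ZMod p)) * M := by
    ext i m
    generalize ha : ((i : ℕ) - n : ZMod p) = a
    simp only [mul_apply, vandermonde_apply, hM, of_apply, ha, mul_pow]
    by_cases h : (m : ℕ) % 2 = 0
    · obtain ⟨t, ht⟩ : ∃ t, (m : ℕ) = 2 * t := ⟨m / 2, by omega⟩
      simp [ht, pow_mul, sq, u_sq]
    · obtain ⟨t, ht⟩ : ∃ t, (m : ℕ) = 2 * t + 1 := ⟨m / 2, by omega⟩
      simp only [if_neg h, w_pow, ← four_u hp, sum_div, mul_sum]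
      rw [sum_comm, sum_eq_single a (fun b _ hb => ?_) (by simp)]
      · rw [sum_congr rfl (g := fun _ => u a * w (a * (m : ℕ) : ZMod p) / p) fun k _ => by
          rw [show a * (m : ℕ) = a * (k : ℕ) + a * ((m : ℕ) - (k : ℕ)) by ring, w_add]; ring]
        simp [ht, pow_succ, pow_mul, u_sq, ← hp]
        field_simp
      · rw [sum_congr rfl (g := fun k : Fin (2 * n + 1) => u b * w (b * (m : ℕ) : ZMod p) / p *
          w (((k : ℕ) : ZMod p) * (a - b))) fun k _ => by
            rw [show b * ((m : ℕ) - (k : ℕ)) = b * (m : ℕ) + -b * (k : ℕ) by ring, w_add,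
              show ((k : ℕ) : ZMod p) * (a - b) = a * (k : ℕ) + -b * (k : ℕ) by ring, w_add]; ring,
          ← mul_sum, Fin.sum_univ_eq_sum_range fun k => w ((k : ZMod p) * (a - b)), ← congrArg range hp,
          ← sum_zmod fun k => w (k * (a - b)), four_one, if_neg (sub_ne_zero.2 hb.symm), mul_zero]
  have h2 : M.det = (c ℂ (-1 : ZMod p) * c ℂ (2 : ZMod p) * tau p / p) ^ n * (T p n).det := by
    rw [twoBlockTriangular_det M (fun i => (i : ℕ) % 2 = 0) fun i hi j hj => by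
      simp only [hM, of_apply, if_pos hj]; exact if_neg fun h : i = j => hi (h ▸ hj)]
    have h3 : (M.toSquareBlockProp fun i => (i : ℕ) % 2 = 0) = 1 := by
      ext i j
      simp [toSquareBlockProp_def, hM, j.2, one_apply, Subtype.ext_iff]
    have h4 := det_smul (T p n) (c ℂ (-1 : ZMod p) * c ℂ (2 : ZMod p) * tau p / p)
    rw [Fintype.card_fin] at h4
    rw [h3, det_one, one_mul, ← h4, ← det_submatrix_equiv_self (⟨fun j : Fin n =>
      ⟨⟨2 * j + 1, by omega⟩, by simp⟩, fun i => ⟨i.1 / 2, by have := i.2; omega⟩,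
      fun j => Fin.ext (by simp; omega), fun i => Subtype.ext (Fin.ext (by
        have := i.2; simp; omega))⟩ : Fin n ≃ {i : Fin (2 * n + 1) // ¬(i : ℕ) % 2 = 0})]
    congr 1
    ext j k
    simp [toSquareBlockProp_def, hM, T, x0]
    rw [← mul_sub, ← neg_sub, c_mul, c_neg]
    field_simp
    linear_combination -(c ℂ (-1 : ZMod p) * tau p ^ 2) * c_sq (R := ℂ) (two_ne hp) -
      c ℂ (-1 : ZMod p) * tau_sq hp - p * c_sq (R := ℂ) (a := (-1 : ZMod p)) (by simp)
  have h3 := congrArg det h1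
  rw [det_mul, h2, det_vandermonde] at h3
  refine mul_left_cancel₀ ((det_vandermonde_ne_zero_iff (v := fun i : Fin (2 * n + 1) =>
    w ((i : ℕ) - n : ZMod p))).2 fun i j h => Fin.ext (by
    have := congrArg ZMod.val (sub_left_injective (w_inj h))
    rwa [ZMod.val_cast_of_lt (by omega), ZMod.val_cast_of_lt (by omega)] at this)) ?_
  rw [← mul_assoc, ← h3, det_vandermonde]
  simp only [← prod_mul_distrib]
  refine prod_congr rfl fun i _ => prod_congr rfl fun j _ => ?_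
  linear_combination w ((i : ℕ) - n : ZMod p) ^ 2 * u_sq ((i : ℕ) - n : ZMod p) -
    w ((j : ℕ) - n : ZMod p) ^ 2 * u_sq ((j : ℕ) - n : ZMod p)

lemma card_neg : ∏ t ∈ (univ.erase (0 : ZMod p)).erase 1, (if u t = 1 then 1 else (p : ℂ)) =
    p ^ n := by
  rw [prod_erase _ (by simp [u]), prod_ite, prod_const_one, one_mul, prod_const]
  congr 1
  have h1 : ∑ t ∈ univ.erase (0 : ZMod p), (if ¬u t = 1 then 1 else 0 : ℂ) =
      ∑ t ∈ univ.erase (0 : ZMod p), (1 / 2 - 1 / 2 * c ℂ t) := sum_congr rfl fun t ht => by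
    rcases c_pm (ne_of_mem_erase ht) with h | h <;> norm_num [u, h, ne_of_mem_erase ht]
  have h2 := c_sum (R := ℂ) hp 1 0 one_ne_zero
  simp only [zero_add, one_mul] at h2
  rw [sum_boole, sum_sub_distrib, ← mul_sum, sum_erase (f := c ℂ) _ c_zero, h2, sum_const,
    card_erase_of_mem (mem_univ _), card_univ, ZMod.card, show p - 1 = 2 * n by omega] at h1
  exact_mod_cast h1.trans (show _ = (n : ℂ) by simp; ring)

lemma Em_real (h : p % 4 = 1) :
    ∃ s : ℝ, 0 ≤ s ∧ ∏ a ∈ univ.erase (0 : ZMod p), (1 + c ℂ a * w a) = s := by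
  refine ⟨∏ j : Fin n, Complex.normSq (1 + c ℂ (e p j) * w (e p j)),
    prod_nonneg fun _ _ => Complex.normSq_nonneg _, ?_⟩
  rw [half_prod' hp, Complex.ofReal_prod]
  refine prod_congr rfl fun j _ => ?_
  rw [← Complex.mul_conj, map_add, map_mul, w_conj, c_m1 h]
  simp [c]

lemma base (h : p % 4 = 1) : (T p n).det =
    c ℂ (2 : ZMod p) * (∏ a ∈ univ.erase (0 : ZMod p), (1 - c ℂ a * w a)) / p := by
  have hp0 : (p : ℂ) ≠ 0 := Nat.cast_ne_zero.2 (by omega)
  obtain ⟨a1, r1, a2, a3⟩ := prs hp (fun _ => 1) rfl (by simp) (by simp) (by simp) _ rfl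
  obtain ⟨b1, r2, b2, b3⟩ := prs hp u (by simp [u])
    (fun a b ha hb => by simp [u, ha, hb, c_mul]) u_sq (fun a => by simp [u, c_m1 h]) _ rfl
  have f := fac hp
  simp only [one_mul, prod_add' hp, if_true, prod_const_one, one_pow] at a1 a3
  have c1 : ∏ j : Fin n, u (e p j) = c ℂ (2 : ZMod p) := by
    obtain ⟨k, h5, h6⟩ := det_sq (diagonal fun j : Fin n => c ℂ (e p j)) 1 (by
      simp [diagonal_mul_diagonal, c_sq (e_ne hp _)])
    rw [trace_diagonal, sum_one hp h, one_mul, Fintype.card_fin] at h5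
    have h9 : n = 2 * k := by exact_mod_cast sub_eq_zero.1 h5.symm
    have := c_leg (R := ℂ) (p := p) 2
    rw [two_leg (by omega), show (p + 1) / 4 = k by omega] at this
    simpa [u, e_ne hp, ← this] using h6.trans (by simpa using this)
  have c2 : ∏ a ∈ univ.erase (0 : ZMod p), (1 + u a * w a) =
      ∏ a ∈ univ.erase (0 : ZMod p), (1 + c ℂ a * w a) :=
    prod_congr rfl fun a ha => by simp [u, ne_of_mem_erase ha]
  have c4 := E_mul hp
  have c5 := c_sq (R := ℂ) (two_ne hp)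
  have c6 := tau_sq hp
  rw [c_m1 h, c_one, one_mul] at f c6
  rw [card_neg hp, c2] at b1
  rw [c1] at b3
  obtain ⟨k, rfl⟩ : ∃ k, n = 2 * k := ⟨n / 2, by omega⟩
  have c7 : (c ℂ (2 : ZMod p) * tau p / p) ^ (2 * k) * p ^ k = 1 := by
    rw [pow_mul, ← mul_pow, show (c ℂ (2 : ZMod p) * tau p / p) ^ 2 * p = 1 by
      field_simp; linear_combination tau p ^ 2 * c5 + c6, one_pow]
  obtain ⟨s, s0, hs⟩ := Em_real hp h
  rw [hs] at b1 c4
  rw [a3] at f a1
  rw [b3] at f b1
  generalize (c ℂ (2 : ZMod p) * tau p / p) ^ (2 * k) = q at *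
  generalize ∏ j : Fin (2 * k), (w (e p j) + w (-e p j)) = t at *
  generalize (T p (2 * k)).det = d at *
  generalize c ℂ (2 : ZMod p) = x at *
  have d1 : r1 * (p : ℂ) ^ k = x * d * r2 := mul_left_cancel₀ (a := t)
    (by rintro rfl; simp at a1) (by linear_combination p ^ k * f + d * r2 * x * t * c7)
  have d2 : x * d * s * (x * d * s) = 1 := mul_left_cancel₀ (pow_ne_zero (2 * k) hp0) (by
    linear_combination -(x * d) ^ 2 * b1 - (r1 * p ^ k + x * d * r2) * t ^ 2 * d1 +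
      p ^ (2 * k) * a1 + (x * d * r2 * t) ^ 2 * c5)
  rcases mul_self_eq_one_iff.1 d2 with d3 | d3
  · field_simp
    linear_combination -d * c4 + x * (∏ a ∈ univ.erase (0 : ZMod p), (1 - c ℂ a * w a)) * d3 -
      d * s * (∏ a ∈ univ.erase (0 : ZMod p), (1 - c ℂ a * w a)) * c5
  · have d4 : r1 * (p : ℝ) ^ k * s = -r2 := by
      exact_mod_cast (by linear_combination s * d1 + r2 * d3 : r1 * (p : ℂ) ^ k * s = -r2)
    have d5 : r2 = 0 := by
      have : 0 ≤ r1 * (p : ℝ) ^ k * s := by positivity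
      linarith
    rw [f, d5] at a1
    simp at a1

lemma rels : ∃ ev od : ℕ → ℂ, ev 0 = c ℂ (-1 : ZMod p) ∧ od 0 = -tau p ∧ ev n = 1 ∧
    od (n - 1) = -tau p ∧ 2 * ev (n - 1) = c ℂ (-1 : ZMod p) * p + 1 ∧ od n = 0 ∧
    ∑ l ∈ range (n + 1), ev l + ∑ l ∈ range (n + 1), od l =
      ∏ a ∈ univ.erase (0 : ZMod p), (1 - c ℂ a * w a) ∧
    ∑ l ∈ range (n + 1), ev l - ∑ l ∈ range (n + 1), od l =
      ∏ a ∈ univ.erase (0 : ZMod p), (1 + c ℂ a * w a) ∧ ∃ ρ, ρ = x0 p *
      ∏ a ∈ univ.erase (0 : ZMod p), (1 - c ℂ a * w a) ∧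
    (∀ j ≤ n, ∑ l ∈ range (n + 1), ev l * (x0 p + c ℂ (j - l : ZMod p)) = ρ) ∧
    ∑ l ∈ range (n + 1), ev l * (x0 p + c ℂ (-1 - l : ZMod p)) = ρ + p * x0 p * tau p ∧
    (∀ j ≤ n, ∑ l ∈ range (n + 1), od l * (x0 p + c ℂ (j - 1 - l : ZMod p)) =
      ρ - if j = 0 then p * x0 p else 0) ∧
    ∑ l ∈ range (n + 1), od l * (x0 p + c ℂ (-2 - l : ZMod p)) = ρ - p * x0 p * ev (n - 1) := by
  obtain ⟨ev, od, a1, a2, a3, a4, a5, a6, a7, a8, a9, H⟩ := poly hp
  have hn : 0 < n := by have := (Fact.out : p.Prime).two_le; omega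
  have hp0 : (p : ℂ) ≠ 0 := Nat.cast_ne_zero.2 (by omega)
  have hz : (2 * n + 1 : ZMod p) = 0 := by
    simpa using (congrArg (Nat.cast : ℕ → ZMod p) hp).symm
  have R := rel hp _ ev od H
  rw [a8] at R
  have k1 : ∀ a : ZMod p, x0 p * (1 + c ℂ (2 * -a) * tau p) = x0 p + c ℂ a := fun a => by
    rw [c_mul, c_neg, x0]
    field_simp
    linear_combination c ℂ (-1 : ZMod p) * c ℂ a * (tau p ^ 2 * c_sq (R := ℂ) (two_ne hp) +
      tau_sq hp) + p * c ℂ a * c_sq (R := ℂ) (a := (-1 : ZMod p)) (by simp)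
  have k2 : ∀ (f : ℕ → ℂ) (i : ℕ), (∀ l, n < l → f l = 0) → i < p → ∑ l ∈ range (n + 1),
      f l * (if 2 * (l - i : ZMod p) = 0 then (p : ℂ) else 0) = p * f i := fun f i hf hi => by
    rw [sum_eq_single i (fun l hl h => ?_) fun h => by rw [hf i (by simpa using h), zero_mul]]
    · simp [mul_comm]
    · rw [if_neg, mul_zero]
      intro h1
      have := congrArg ZMod.val (sub_eq_zero.1 ((mul_eq_zero.1 h1).resolve_left (two_ne hp)))
      rw [ZMod.val_cast_of_lt (by have := mem_range.1 hl; omega), ZMod.val_cast_of_lt hi] at this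
      exact h this
  have r1 : ∀ i < p, ∀ a : ZMod p, a = i + n + 1 → ∑ l ∈ range (n + 1), ev l *
      (x0 p + c ℂ (a - l : ZMod p)) =
        x0 p * ∏ a ∈ univ.erase (0 : ZMod p), (1 - c ℂ a * w a) - p * x0 p * od i := fun i hi a ha => by
    rw [← (R (2 * a)).2, mul_add, mul_right_comm, ← k2 od i (fun l hl => a7 l hl.le) hi, mul_sum]
    simp only [← k1, show ∀ l : ℕ, 2 * l + 1 - 2 * a = 2 * (l - i : ZMod p) from fun l => by
      linear_combination -2 * ha - hz, show ∀ l : ℕ, 2 * l - 2 * a = 2 * -(a - l : ZMod p) from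
      fun l => by ring, mul_left_comm (x0 p)]
    ring
  have r2 : ∀ i < p, ∀ a : ZMod p, a = i + n → ∑ l ∈ range (n + 1), od l *
      (x0 p + c ℂ (a - l : ZMod p)) =
        x0 p * ∏ a ∈ univ.erase (0 : ZMod p), (1 - c ℂ a * w a) - p * x0 p * ev i := fun i hi a ha => by
    rw [← (add_comm _ _).trans (R (2 * a + 1)).1, mul_add, mul_right_comm, ← k2 ev i a6 hi, mul_sum]
    simp only [← k1, show ∀ l : ℕ, 2 * l - (2 * a + 1) = 2 * (l - i : ZMod p) from fun l => by
      linear_combination -2 * ha - hz, show ∀ l : ℕ, 2 * l + 1 - (2 * a + 1) =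
      2 * -(a - l : ZMod p) from fun l => by ring, mul_left_comm (x0 p)]
    ring
  refine ⟨ev, od, a1, a2, a3, a4, a5, a7 n le_rfl, a8, a9, _, rfl, fun j hj => ?_, ?_,
    fun j hj => ?_, ?_⟩
  · rw [r1 (j + n) (by omega) _ (by push_cast; linear_combination -hz), a7 _ (by omega)]; simp
  · rw [r1 (n - 1) (by omega) _ (by push_cast [hn]; linear_combination -hz), a4]; ring
  · rw [r2 (j + n) (by omega) _ (by push_cast; linear_combination -hz)]
    split_ifs with h
    · simp [h, a3]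
    · simp [a6 _ (show n < j + n by omega)]
  · rw [r2 (n - 1) (by omega) _ (by push_cast [hn]; linear_combination -hz)]

end Pool.Agent.H.MP_e449c6_nt
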