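import Pool.Agent.H.MP_e449c6_nt.B

set_option autoImplicit false
set_option linter.unusedSectionVars false
open Finset Matrix NumberField Real

namespace Pool.Agent.H.MP_e449c6_nt

open MP_4f0cf1_nt Lib.helper20.Quad

lemma gen {m : ℕ} (M : Matrix (Fin (m + 1)) (Fin (m + 1)) ℂ) (v a b : Fin (m + 1) → ℂ)
    (t μ l : ℂ) (h0 : μ ≠ 0) (h1 : ∀ j, ∑ k, M j k * v k = μ) (h2 : ∀ j, M j 0 = t + a j)
    (h3 : M.det = l * μ) (x y z w : ℂ) :
    (of fun j k => x + (M j k - t) + a j * y + b k * z + a j * b k * w).det =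
      l * ((μ - t * ∑ k, v k) * (1 + y + b 0 * w) + x * ∑ k, v k + z * ∑ k, b k * v k +
        (x * w - y * z) * (b 0 * ∑ k, v k - ∑ k, b k * v k)) := by
  have := upd M (of fun j => ![μ⁻¹ * v j, Pi.single (M := fun _ => ℂ) 0 1 j])
    (of fun j => ![1, t + a j])
    (of ![fun k => x - t - t * y + (z - t * w) * b k, fun k => y + w * b k]) (by
      ext j i
      fin_cases i
      · simp [mul_apply, mul_left_comm _ μ⁻¹, ← mul_sum, h1, h0]
      · simp [mul_apply, Pi.single_apply, h2])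
  rw [det_fin_two, h3] at this
  simp [vecMul, dotProduct, add_mul, sum_add_distrib, ← mul_sum, mul_assoc,
    mul_left_comm _ μ⁻¹, Pi.single_apply] at this
  refine .trans (congrArg det ?_) (this.trans ?_)
  · ext j k
    simp [mul_apply]
    ring
  · field_simp
    ring

/-- A shifted sequence. -/
def sh (f : ℕ → ℂ) : ℕ → ℂ
  | 0 => 0
  | l + 1 => f l

variable {p : ℕ} [Fact p.Prime]

lemma sh_sum (f : ℕ → ℂ) (a : ZMod p) (n : ℕ) : ∑ l ∈ range (n + 1), sh f l *
    (x0 p + c ℂ (a - l : ZMod p)) = ∑ l ∈ range n, f l * (x0 p + c ℂ (a - 1 - l : ZMod p)) := by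
  simp [sum_range_succ', sh, sub_sub, add_comm (1 : ZMod p)]

lemma tau_ne {n : ℕ} (hp : p = 2 * n + 1) (k : ℕ) : tau p + k ≠ 0 := fun h => by
  have h1 := tau_sq hp
  rw [eq_neg_of_add_eq_zero_left h] at h1
  by_cases h4 : p % 4 = 1
  · rw [c_m1 h4, c_one] at h1
    have : k * k = p := by exact_mod_cast (by linear_combination h1 : (k : ℂ) * k = p)
    exact (Fact.out : p.Prime).prime.not_isSquare ⟨k, this.symm⟩
  · rw [c_m3 (by omega), c_one] at h1
    have : k * k + p = 0 := by exact_mod_cast (by linear_combination h1 : (k : ℂ) * k + p = 0)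
    omega

lemma skew {m : ℕ} (hp : p = 2 * (m + 2) + 1) (h : p % 4 = 3) (x y z w : ℂ) :
    (of fun j k : Fin (m + 1) => x + c ℂ ((j : ℕ) - (k : ℕ) : ZMod p) + c ℂ ((j : ℕ) : ZMod p) * y +
      c ℂ ((k : ℕ) : ZMod p) * z + c ℂ ((j : ℕ) : ZMod p) * c ℂ ((k : ℕ) : ZMod p) * w).det =
      w * x + (1 + y) * (1 - z) := by
  obtain ⟨M, hM⟩ : ∃ M, M = of fun j k : Fin (m + 1) => c ℂ ((j : ℕ) - (k : ℕ) : ZMod p) := ⟨_, rfl⟩
  have h1 : M.det = 1 := by
    have := congrArg (Int.cast : ℤ → ℂ) (MP_0c110c_nt.main p (m + 1) (by omega) h)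
    rw [Int.cast_det, Int.cast_one] at this
    rw [← this, hM]
    congr 1
    ext j k
    simp [c_leg]
  obtain ⟨v, hv⟩ : ∃ v : Fin (m + 1) → ℂ, ∀ j, ∑ k, M j k * v k = 1 :=
    ⟨M.adjugate *ᵥ 1, fun j => by
      have := congrFun (mulVec_mulVec 1 M M.adjugate) j
      rwa [mul_adjugate, h1, one_smul, one_mulVec] at this⟩
  have h2 : ∑ k, v k = 0 := by
    have : ∑ j, ∑ k, v j * (M j k * v k) = -∑ j, ∑ k, v j * (M j k * v k) := by
      conv_lhs => rw [sum_comm]
      simp only [← sum_neg_distrib, hM, of_apply]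
      exact sum_congr rfl fun j _ => sum_congr rfl fun k _ => by rw [← neg_sub, c_m3 h]; ring
    simp only [← mul_sum, hv, mul_one] at this
    linear_combination this / 2
  have h3 : ∑ k : Fin (m + 1), c ℂ ((k : ℕ) : ZMod p) * v k = -1 := by
    simpa [hM, c_m3 h, neg_eq_iff_eq_neg] using hv 0
  have := gen M v (fun j => c ℂ ((j : ℕ) : ZMod p)) (fun j => c ℂ ((j : ℕ) : ZMod p)) 0 1 1
    one_ne_zero hv (by simp [hM]) (by simp [h1]) x y z w
  rw [h2, h3] at this
  simp only [hM, of_apply, sub_zero] at this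
  rw [this]
  simp
  ring

lemma E_three {n : ℕ} (hp : p = 2 * n + 1) (h : p % 4 = 3) (h3 : 3 < p) {K : Type*} [Field K]
    [NumberField K] (h2 : Module.finrank ℚ K = 2) {s : K} (hs : s ^ 2 = -p) :
    ∏ a ∈ univ.erase (0 : ZMod p), (1 - c ℂ a * w a) =
      -c ℂ (2 : ZMod p) * (-1) ^ ((classNumber K - 1) / 2) * tau p := by
  have h4 : ∑ a ∈ Ico 1 p, (legendreSym p a : ℂ) * Real.log (2 * Real.sin (π * (a / p))) = 0 := by
    have := sum_Ico_reflect (fun a : ℕ => (legendreSym p a : ℂ) *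
      Real.log (2 * Real.sin (π * (a / p)))) 1 (m := p) (n := p) (by omega)
    rw [show p + 1 - p = 1 by omega, Nat.add_sub_cancel, sum_congr rfl (g := fun a : ℕ =>
      -((legendreSym p a : ℂ) * Real.log (2 * Real.sin (π * (a / p))))) fun a ha => ?_,
      sum_neg_distrib] at this
    · linear_combination -this / 2
    · have h5 := (mem_Ico.1 ha).2.le
      have h6 : (p : ℝ) ≠ 0 := Nat.cast_ne_zero.2 (by omega)
      rw [c_leg, c_leg, show π * ((p - a : ℕ) / p) = π - π * (a / p) by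
        push_cast [h5]; field_simp, Real.sin_pi_sub]
      simp [h5, c_m3 h]
  have h5 := congrArg (Int.cast : ℤ → ℂ) (h_neg h2 (by rwa [← sq]) h h3)
  have h6 := congrArg (Int.cast : ℤ → ℂ) (leg_sum (p := p) (by omega))
  rw [range_eq_Ico, sum_eq_sum_Ico_succ_bot (by omega)] at h5
  have h7 : (p : ℂ) ≠ 0 := Nat.cast_ne_zero.2 (by omega)
  obtain ⟨t, ht⟩ : ∃ t, classNumber K = 2 * t + 1 :=
    ⟨classNumber K / 2, by have := (det_h (R := ℤ) hp h h3 h2 hs).2.1; omega⟩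
  have h8 : ∑ a ∈ Ico 1 p, (legendreSym p a : ℂ) * (Real.log (2 * Real.sin (π * (a / p))) +
      (π * (a / p - 1 / 2) : ℝ) * Complex.I) = 2 * (classNumber K * (-π / 2 * Complex.I)) := by
    rw [sum_congr rfl (g := fun a : ℕ => (legendreSym p a : ℂ) * Real.log (2 * Real.sin
      (π * (a / p))) + π * Complex.I / p * (a * legendreSym p a) - π * Complex.I / 2 *
      legendreSym p a) fun a _ => by push_cast; ring]
    push_cast at h5 h6
    simp only [sum_sub_distrib, sum_add_distrib, ← mul_sum, h4, h6]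
    field_simp
    linear_combination 2 * π * Complex.I * h5
  rw [E_exp hp, h8, tau, if_neg (by omega), show (classNumber K - 1) / 2 = t by omega]
  rcases c_pm (two_ne hp) with a | a <;> rw [a]
  · rw [show ∀ y : ℂ, (1 - 1 / 2) * (2 * y) = y from fun y => by ring, Complex.exp_nat_mul,
      Complex.exp_neg_pi_div_two_mul_I, ht, pow_succ, pow_mul, neg_sq, Complex.I_sq]
    ring
  · rw [show ∀ y : ℂ, (1 - -1 / 2) * (2 * y) = (3 : ℕ) * y from fun y => by push_cast; ring,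
      Complex.exp_nat_mul, Complex.exp_nat_mul, Complex.exp_neg_pi_div_two_mul_I, ht, pow_succ _ (2 * t),
      pow_mul, neg_sq, Complex.I_sq]
    have : (-1 : ℂ) ^ t * (-1) ^ t = 1 := by rw [← mul_pow]; simp
    linear_combination √p * (-1) ^ t * Complex.I * (this - ((-1) ^ t) ^ 2 * Complex.I_sq)

lemma E_one {n : ℕ} (hp : p = 2 * n + 1) (h : p % 4 = 1) {K : Type*} [Field K] [NumberField K]
    (h2 : Module.finrank ℚ K = 2) {s : K} (hs : s ^ 2 = p) (φ : K →+* ℝ) (ε : (𝓞 K)ˣ)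
    (h1 : 1 < φ ε) (hε : ∀ η : (𝓞 K)ˣ, 1 < φ η → φ ε ≤ φ η) :
    ∏ a ∈ univ.erase (0 : ZMod p), (1 + c ℂ a * w a) =
      (√p * φ ε ^ ((2 - legendreSym p 2) * classNumber K) : ℝ) := by
  obtain ⟨r, r0, hr⟩ := Em_real hp h
  have h3 := congrArg (‖·‖) (E_mul hp)
  have h4 := h_pos h2 (by rwa [← sq]) h φ ε h1 hε
  have h5 : (0 : ℝ) < √p := Real.sqrt_pos.2 (Nat.cast_pos.2 (by omega))
  have h6 : c ℂ (2 : ZMod p) = (legendreSym p 2 : ℝ) := by simpa using (c_leg 2).symm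
  simp only [hr, E_exp hp, norm_mul, Complex.norm_real, Complex.norm_exp, Complex.norm_natCast,
    Real.norm_of_nonneg r0, Real.norm_of_nonneg h5.le, h6] at h3
  rw [show (1 - (legendreSym p 2 : ℝ) / 2 : ℂ) = (1 - legendreSym p 2 / 2 : ℝ) by push_cast; rfl,
    Complex.re_ofReal_mul, Complex.re_sum, sum_congr rfl (g := fun a : ℕ =>
      legendreSym p a * Real.log (2 * Real.sin (π * (a / p)))) fun a _ => by
        simp, ← neg_eq_iff_eq_neg.2 h4] at h3
  rw [hr, ← Real.rpow_intCast, Real.rpow_def_of_pos (by linarith)]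
  congr 1
  apply mul_left_cancel₀ (mul_pos h5 (Real.exp_pos _)).ne'
  rw [h3, mul_mul_mul_comm, ← Real.exp_add, Real.mul_self_sqrt (Nat.cast_nonneg p)]
  push_cast
  ring_nf
  simp

lemma down {m : ℕ} (hp : p = 2 * (m + 1) + 1) : (T p m).det * (p * x0 p) =
    -(T p (m + 1)).det * (tau p * (1 + c ℂ (-1 : ZMod p) + tau p)) := by
  obtain ⟨ev, od, a1, a2, a3, a4, -, a6, -, -, ρ, -, r1, -, r2, -⟩ := rels hp
  have := cof (T p (m + 1)) (fun l => sh od l - od l + tau p * (ev l - od l)) (-(p * x0 p))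
    (fun j => by
      have b1 := r1 j (by omega)
      have b2 := r2 j (by omega)
      have b3 := r2 (j + 1) (by omega)
      rw [sum_range_succ] at b1 b2 b3
      rw [sum_range_succ, show od m = _ from a4] at b2
      simp only [T, of_apply, mul_comm (x0 p + _)]
      rw [Fin.sum_univ_eq_sum_range (fun l => (sh od l - od l + tau p * (ev l - od l)) *
        (x0 p + c ℂ ((j : ℕ) - l : ZMod p)))]
      simp only [add_mul (_ - _), sub_mul, mul_assoc (tau p), sum_add_distrib, sum_sub_distrib,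
        ← mul_sum, sh_sum]
      simp only [a3, a6, Nat.cast_succ, add_sub_cancel_right, Fin.val_eq_zero_iff, sub_sub,
        add_comm (1 : ZMod p), Nat.succ_ne_zero, if_false] at b1 b2 b3 ⊢
      split_ifs at * <;> linear_combination tau p * b1 + b2 - (1 + tau p) * b3) 0
  simp [sh, a1, a2] at this
  have h : (T p (m + 1)).submatrix Fin.succ Fin.succ = T p m := by ext; simp [T]
  rw [h] at this
  linear_combination -this

lemma up {n : ℕ} (hp : p = 2 * n + 1) : (of fun j k : Fin n =>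
    x0 p + c ℂ ((j : ℕ) + 1 - (k : ℕ) : ZMod p)).det = (tau p + 1) * (T p n).det := by
  obtain ⟨ev, od, a1, a2, a3, a4, -, a6, -, -, ρ, -, r1, -, r2, -⟩ := rels hp
  have := cof (T p (n + 1)) (fun l => sh od l - ev l) (-(p * x0 p)) fun j => by
    have b1 := r1 j (by omega)
    have b2 := r2 j (by omega)
    rw [sum_range_succ] at b2
    simp only [T, of_apply, mul_comm (_ + _)]
    rw [Fin.sum_univ_eq_sum_range (fun l => (sh od l - ev l) *
      (x0 p + c ℂ ((j : ℕ) - l : ZMod p)))]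
    simp only [sub_mul, sum_sub_distrib, sh_sum, b1, a6, Fin.val_eq_zero_iff] at b2 ⊢
    split_ifs at * <;> linear_combination b2
  have c1 := this 0
  have c2 := this (Fin.last n)
  have h : (T p (n + 1)).submatrix Fin.succ Fin.succ = T p n := by ext; simp [T]
  have h1 : (-1 : ℂ) ^ n = c ℂ (-1 : ZMod p) := by
    by_cases h4 : p % 4 = 1
    · rw [c_m1 h4, c_one, (Nat.even_iff.2 (by omega)).neg_one_pow]
    · rw [c_m3 (by omega), c_one, (Nat.odd_iff.2 (by omega)).neg_one_pow]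
  have h2 : sh od n = -tau p := by
    obtain ⟨m, rfl⟩ : ∃ m, n = m + 1 := ⟨n - 1, by have := (Fact.out : p.Prime).two_le; omega⟩
    exact a4
  have h3 : (p : ℂ) * x0 p ≠ 0 := by
    rw [x0, mul_div_cancel₀ _ (Nat.cast_ne_zero.2 (by omega))]
    exact mul_ne_zero (left_ne_zero_of_mul_eq_one (c_sq (two_ne hp))) (by simpa using tau_ne hp 0)
  simp [sh, a1, h] at c1
  simp only [Fin.val_last, h1, h2, a3, Fin.succAbove_last] at c2
  refine Eq.trans (congrArg det ?_) (mul_right_cancel₀ h3 (?_ : ((T p (n + 1)).submatrix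
    Fin.succ Fin.castSucc).det * _ = _))
  · ext; simp [T]
  · linear_combination -c ℂ (-1 : ZMod p) * c2 - (tau p + 1) * c1 - ((T p (n + 1)).submatrix
      Fin.succ Fin.castSucc).det * (p * x0 p) * c_sq (R := ℂ) (a := (-1 : ZMod p)) (by simp)

lemma x0_ne {n : ℕ} (hp : p = 2 * n + 1) : x0 p ≠ 0 :=
  div_ne_zero (mul_ne_zero (left_ne_zero_of_mul_eq_one (c_sq (two_ne hp)))
    (by simpa using tau_ne hp 0)) (Nat.cast_ne_zero.2 (by omega))

lemma x0_mul {n : ℕ} (hp : p = 2 * n + 1) : x0 p * p = c ℂ (2 : ZMod p) * tau p :=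
  div_mul_cancel₀ _ (Nat.cast_ne_zero.2 (by omega))

lemma E_ne {n : ℕ} (hp : p = 2 * n + 1) :
    ∏ a ∈ univ.erase (0 : ZMod p), (1 - c ℂ a * w a) ≠ 0 :=
  left_ne_zero_of_mul ((E_mul hp).symm ▸ Nat.cast_ne_zero.2 (by omega))

lemma ints {m : ℕ} (hp : p = 2 * (m + 1) + 1) (h : p % 4 = 1) : ∃ a b : ℤ,
    ∏ a ∈ univ.erase (0 : ZMod p), (1 - c ℂ a * w a) = p * b - a * tau p ∧
    ∏ a ∈ univ.erase (0 : ZMod p), (1 + c ℂ a * w a) = p * b + a * tau p := by
  obtain ⟨ev, od, -, -, -, -, -, a6, a7, a8, ρ, hρ, -, -, r2, -⟩ := rels hp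
  have hp0 : (p : ℂ) ≠ 0 := Nat.cast_ne_zero.2 (by omega)
  have c5 := c_sq (R := ℂ) (two_ne hp)
  have c6 := tau_sq hp
  rw [c_m1 h, c_one, one_mul] at c6
  have := fun x => gen (T p (m + 1)) (fun l => od l) (fun j => c ℂ ((j : ℕ) : ZMod p)) 0 (x0 p) ρ
    (tau p / p) (hρ ▸ mul_ne_zero (x0_ne hp) (E_ne hp)) (fun j => by
      have b3 := r2 (j + 1) (by omega)
      rw [sum_range_succ, a6, ← Fin.sum_univ_eq_sum_range] at b3
      simpa [T, mul_comm] using b3) (by simp [T])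
    (by rw [base hp h, hρ, x0]; field_simp; linear_combination -c ℂ (2 : ZMod p) *
      (∏ a ∈ univ.erase (0 : ZMod p), (1 - c ℂ a * w a)) * c6) x 0 0 0
  rw [Fin.sum_univ_eq_sum_range od, hρ, ← a7, sum_range_succ od, a6] at this
  rw [← a7, ← a8, sum_range_succ od, a6]
  have h1 : ∀ x : ℤ, ∃ d : ℤ, d =
      tau p / p * (x0 p * ∑ l ∈ range (m + 1 + 1), ev l + x * ∑ l ∈ range (m + 1), od l) :=
    fun x => by
      use (of fun j k : Fin (m + 1) => x + c ℤ ((j : ℕ) - (k : ℕ) : ZMod p)).det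
      rw [Int.cast_det]
      refine .trans (congrArg det ?_) ((this x).trans (by ring))
      ext; simp [T, c]
  obtain ⟨d, h2⟩ := h1 0
  obtain ⟨d', h3⟩ := h1 1
  refine ⟨d - d', legendreSym p 2 * d, ?_⟩
  rw [Int.cast_mul, Int.cast_sub, h2, h3, c_leg, x0]
  push_cast
  constructor <;> field_simp
  · linear_combination -p * (∑ l ∈ range (m + 1 + 1), ev l) * (tau p ^ 2 * c5 + c6) -
      p * (∑ l ∈ range (m + 1), od l) * c6
  · linear_combination -p * (∑ l ∈ range (m + 1 + 1), ev l) * (tau p ^ 2 * c5 + c6) +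
      p * (∑ l ∈ range (m + 1), od l) * c6

lemma one_a {m : ℕ} (hp : p = 2 * (m + 2) + 1) (h : p % 4 = 1) {a b : ℂ}
    (h1 : ∏ a ∈ univ.erase (0 : ZMod p), (1 - c ℂ a * w a) = p * b - a * tau p)
    (h2 : ∏ a ∈ univ.erase (0 : ZMod p), (1 + c ℂ a * w a) = p * b + a * tau p) (x y z w : ℂ) :
    (of fun j k : Fin (m + 1) => x + c ℂ ((j : ℕ) - (k : ℕ) : ZMod p) + c ℂ ((j : ℕ) : ZMod p) * y +
      c ℂ ((k : ℕ) : ZMod p) * z + c ℂ ((j : ℕ) : ZMod p) * c ℂ ((k : ℕ) : ZMod p) * w).det =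
      c ℂ (2 : ZMod p) * (2 * a - p * b) * x + (a - 2 * b) * ((1 + y) * (1 + z) - w * x) := by
  obtain ⟨ev, od, a1, a2, a3, a4, -, a6, a7, a8, ρ, hρ, r1, -, r2, -⟩ := rels hp
  have hp0 : (p : ℂ) ≠ 0 := Nat.cast_ne_zero.2 (by omega)
  have c5 := c_sq (R := ℂ) (two_ne hp)
  have c6 := tau_sq hp
  have c7 := down hp
  rw [c_m1 h, c_one] at a1 c6 c7
  have h3 : ∀ j : Fin (m + 1), ∑ k, T p (m + 1) j k * (tau p * ev (k + 1) + od (k + 1) + od k) =
      (tau p + (2 : ℕ)) * ρ := fun j => by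
    have b1 := r1 (j + 1) (by omega)
    have b2 := r2 (j + 1 + 1) (by omega)
    have b3 := r2 (j + 1) (by omega)
    rw [sum_range_succ] at b1 b2 b3
    rw [sum_range_succ'] at b1 b2
    rw [sum_range_succ, show od (m + 1) = _ from a4] at b3
    simp only [T, of_apply, mul_comm (x0 p + _)]
    rw [Fin.sum_univ_eq_sum_range (fun l => (tau p * ev (l + 1) + od (l + 1) + od l) *
      (x0 p + c ℂ ((j : ℕ) - l : ZMod p)))]
    simp only [add_mul (_ + _), add_mul (tau p * _), mul_assoc (tau p), sum_add_distrib, ← mul_sum]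
    simp only [a1, a2, a3, a6, Nat.cast_succ, add_sub_cancel_right, add_sub_add_right_eq_sub,
      Nat.succ_ne_zero, if_false] at b1 b2 b3 ⊢
    linear_combination tau p * b1 + b2 + b3
  have := gen (T p (m + 1)) _ (fun j => c ℂ ((j : ℕ) : ZMod p)) (fun j => c ℂ ((j : ℕ) : ZMod p))
    (x0 p) _ (-c ℂ (2 : ZMod p) * tau p / p) (mul_ne_zero (tau_ne hp 2)
      (hρ ▸ mul_ne_zero (x0_ne hp) (E_ne hp))) h3 (by simp [T]) (by
      apply mul_right_cancel₀ (mul_ne_zero hp0 (x0_ne hp))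
      rw [c7, base hp h, hρ, x0]
      field_simp
      push_cast
      linear_combination c ℂ (2 : ZMod p) * (∏ a ∈ univ.erase (0 : ZMod p),
        (1 - c ℂ a * MP_e449c6_nt.w a)) * tau p * (tau p + 2) * (tau p ^ 2 * c5 + c6)) x y z w
  have h4 := h3 0
  have h5 : ∑ k : Fin (m + 1), (tau p * ev (k + 1) + od (k + 1) + od k) =
      tau p * (p * b) - 2 * a * tau p := by
    rw [h1] at a7
    rw [h2] at a8
    rw [sum_range_succ ev, sum_range_succ' ev, sum_range_succ od, a1, a3, a6] at a7 a8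
    have b1 := sum_range_succ' od (m + 1)
    have b2 := sum_range_succ od (m + 1)
    rw [show od (m + 1) = _ from a4] at b2
    rw [Fin.sum_univ_eq_sum_range fun l => tau p * ev (l + 1) + od (l + 1) + od l]
    simp only [sum_add_distrib, ← mul_sum]
    linear_combination tau p / 2 * (a7 + a8) + a7 - a8 - b1 - b2 - a2
  simp only [T, of_apply, Fin.val_zero, Nat.cast_zero, zero_sub, c_m1 h, add_mul (x0 p),
    sum_add_distrib (f := fun _ => x0 p * _), ← mul_sum, add_sub_cancel_left, c_zero] at this h4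
  have h6 : ∑ k : Fin (m + 1), c ℂ ((k : ℕ) : ZMod p) * (tau p * ev (k + 1) + od (k + 1) + od k) =
      c ℂ (2 : ZMod p) * tau p * (2 * b - a) := by
    rw [h5, hρ, h1] at h4
    push_cast at h4
    linear_combination h4 + (2 * b - a) * x0_mul hp - x0 p * a * c6
  rw [this, ← eq_sub_iff_add_eq'.2 h4, h5, h6, div_mul_eq_mul_div, div_eq_iff hp0]
  linear_combination (a - 2 * b) * ((1 + y) * (1 + z) - w * x) * (tau p ^ 2 * c5 + c6) +
    c ℂ (2 : ZMod p) * x * (2 * a - p * b) * c6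

lemma shifted {m : ℕ} (hp : p = 2 * (m + 1) + 1) {A B l : ℂ}
    (h1 : ∏ a ∈ univ.erase (0 : ZMod p), (1 - c ℂ a * w a) = A + B)
    (h2 : ∏ a ∈ univ.erase (0 : ZMod p), (1 + c ℂ a * w a) = A - B)
    (h3 : (T p (m + 1)).det = l * (x0 p * (A + B))) (x y z w : ℂ) :
    (of fun j k : Fin (m + 1) => x + c ℂ ((j : ℕ) + 1 - (k : ℕ) : ZMod p) + c ℂ (e p j) * y +
      c ℂ (e p k) * z + c ℂ (e p j) * c ℂ (e p k) * w).det =
      l * (x0 p * (A + tau p * B) * (1 + y + w) + (x + x * w - y * z) * (tau p * A + B) +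
        (z - x * w + y * z) * (c ℂ (-1 : ZMod p) * x0 p * (A + tau p * B) +
          p * x0 p * (p - c ℂ (-1 : ZMod p)) / 2)) := by
  obtain ⟨ev, od, -, -, a3, a4, a5, a6, a7, a8, ρ, hρ, r1, r3, r2, r4⟩ := rels hp
  have c6 := tau_sq hp
  have m1 := c_sq (R := ℂ) (a := (-1 : ZMod p)) (by simp)
  have h4 : ∀ a : ZMod p, ∑ k : Fin (m + 1), (x0 p + c ℂ (a - (k : ℕ) : ZMod p)) *
      (tau p * ev k + sh od k) = tau p * ∑ l ∈ range (m + 1 + 1), ev l * (x0 p + c ℂ (a - l : ZMod p)) +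
        ∑ l ∈ range (m + 1 + 1), od l * (x0 p + c ℂ (a - 1 - l : ZMod p)) := fun a => by
    rw [sum_range_succ, sum_range_succ _ (m + 1), sum_range_succ (fun l => od l * _) m, show od m = _ from a4,
      ← sh_sum, a3, a6, Fin.sum_univ_eq_sum_range fun l => (x0 p + c ℂ (a - l : ZMod p)) *
        (tau p * ev l + sh od l)]
    simp only [mul_comm (x0 p + _), add_mul (tau p * _), mul_assoc, sum_add_distrib, ← mul_sum,
      Nat.cast_succ, sub_sub, add_comm (1 : ZMod p)]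
    ring
  have := gen (of fun j k : Fin (m + 1) => x0 p + c ℂ ((j : ℕ) + 1 - (k : ℕ) : ZMod p))
    (fun k => tau p * ev k + sh od k) (fun j => c ℂ (e p j)) (fun j => c ℂ (e p j)) (x0 p)
    ((tau p + (1 : ℕ)) * ρ) l (mul_ne_zero (tau_ne hp 1) (hρ ▸ mul_ne_zero (x0_ne hp) (E_ne hp)))
    (fun j => by
      have b1 := r1 (j + 1) (by omega)
      have b2 := r2 (j + 1) (by omega)
      push_cast at b1 b2
      simp only [of_apply, h4, b1, b2]
      push_cast
      ring) (by simp [e]) (by rw [up hp, h3, hρ, h1]; push_cast; ring) x y z w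
  have h5 : ∑ k : Fin (m + 1), (tau p * ev k + sh od k) = tau p * A + B := by
    rw [h1] at a7
    rw [h2] at a8
    rw [sum_range_succ ev, sum_range_succ od, sum_range_succ od, a3, a6,
      show od m = _ from a4] at a7 a8
    rw [Fin.sum_univ_eq_sum_range fun l => tau p * ev l + sh od l]
    simp only [sum_add_distrib, ← mul_sum, sum_range_succ' (sh od)]
    simp only [sh]
    linear_combination tau p / 2 * (a7 + a8) + (a7 - a8) / 2
  have h6 := h4 (-1)
  rw [r3, show (-1 - 1 : ZMod p) = -2 by ring, r4] at h6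
  simp only [add_mul (x0 p), sum_add_distrib (f := fun _ => x0 p * _), ← mul_sum, h5,
    show ∀ k : Fin (m + 1), -1 - ((k : ℕ) : ZMod p) = -e p k from fun k => by rw [e]; ring,
    c_neg (e p _), mul_assoc (c ℂ (-1 : ZMod p))] at h6
  have h7 : ∑ k : Fin (m + 1), c ℂ (e p k) * (tau p * ev k + sh od k) =
      c ℂ (-1 : ZMod p) * x0 p * (A + tau p * B) + p * x0 p * (p - c ℂ (-1 : ZMod p)) / 2 := by
    rw [hρ, h1] at h6
    linear_combination c ℂ (-1 : ZMod p) * (h6 + p * x0 p * (c6 - a5 / 2)) + (p * x0 p * p / 2 -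
      ∑ k : Fin (m + 1), c ℂ (e p k) * (tau p * ev k + sh od k)) * m1
  simp only [of_apply, add_sub_cancel_left, h5, h7, hρ, h1] at this
  rw [this]
  simp [e]
  left
  ring

lemma unit_eq {n : ℕ} (hp : p = 2 * n + 1) (h : p % 4 = 1) {r : ℝ} {a b : ℤ}
    (h1 : (p : ℂ) * b + a * tau p = (√p * r : ℝ)) : r = a + b * √p := by
  have h5 : (0 : ℝ) < √p := Real.sqrt_pos.2 (Nat.cast_pos.2 (by omega))
  rw [tau, if_pos h, one_mul] at h1
  have h2 : (p : ℝ) * b + a * √p = √p * r := by exact_mod_cast h1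
  apply mul_left_cancel₀ h5.ne'
  linear_combination -h2 - b * Real.mul_self_sqrt (Nat.cast_nonneg p)

lemma shifted_one {m : ℕ} (hp : p = 2 * (m + 1) + 1) (h : p % 4 = 1) {a b : ℂ}
    (h1 : ∏ a ∈ univ.erase (0 : ZMod p), (1 - c ℂ a * w a) = p * b - a * tau p)
    (h2 : ∏ a ∈ univ.erase (0 : ZMod p), (1 + c ℂ a * w a) = p * b + a * tau p) (x y z w : ℂ) :
    (of fun j k : Fin (m + 1) => x + c ℂ ((j : ℕ) + 1 - (k : ℕ) : ZMod p) + c ℂ (e p j) * y +
      c ℂ (e p k) * z + c ℂ (e p j) * c ℂ (e p k) * w).det =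
      c ℂ (2 : ZMod p) * ((p - 1) / 2) * ((y + 1) * z - w * x) + (p * b - a) * ((w + 1) * x - y * z) +
        c ℂ (2 : ZMod p) * (b - a) * (w * (1 - x) + (y + 1) * (z + 1)) := by
  have hp0 : (p : ℂ) ≠ 0 := Nat.cast_ne_zero.2 (by omega)
  have c6 := tau_sq hp
  have t0 : tau p ≠ 0 := by simpa using tau_ne hp 0
  rw [c_m1 h, c_one, one_mul] at c6
  rw [shifted hp (A := p * b) (B := -(a * tau p)) (l := (tau p)⁻¹) h1 (by rw [h2]; ring) (by
    rw [base hp h, h1, x0]; field_simp; ring), c_m1 h, c_one, x0, ← c6]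
  field_simp
  ring

lemma shifted_three {m : ℕ} (hp : p = 2 * (m + 2) + 1) (h : p % 4 = 3) {s : ℂ} (hs : s * s = 1)
    (h1 : ∏ a ∈ univ.erase (0 : ZMod p), (1 - c ℂ a * w a) = -c ℂ (2 : ZMod p) * s * tau p)
    (x y z w : ℂ) :
    (of fun j k : Fin (m + 2) => x + c ℂ ((j : ℕ) + 1 - (k : ℕ) : ZMod p) + c ℂ (e p j) * y +
      c ℂ (e p k) * z + c ℂ (e p j) * c ℂ (e p k) * w).det =
      (w + 1) * x - y * z + c ℂ (2 : ZMod p) * ((y + 1) * (z - 1) - w * (x + 1)) +
        s * ((p + 1) / 2) * (w * x - (y + 1) * z) := by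
  have hp0 : (p : ℂ) ≠ 0 := Nat.cast_ne_zero.2 (by omega)
  have c5 := c_sq (R := ℂ) (two_ne hp)
  have c6 := tau_sq hp
  have c7 := down hp
  have c8 := skew hp h (x0 p) 0 0 0
  have c9 := E_mul hp
  have t0 : tau p ≠ 0 := by simpa using tau_ne hp 0
  have e0 := E_ne hp
  simp only [mul_zero, add_zero, zero_mul, sub_zero, mul_one, zero_add] at c8
  rw [c_m3 h, c_one] at c6 c7
  rw [show (T p (m + 1)).det = 1 from c8] at c7
  rw [h1] at c9 e0
  rw [shifted hp (A := 0) (B := -c ℂ (2 : ZMod p) * s * tau p) (l := (-c ℂ (2 : ZMod p) * s *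
    tau p)⁻¹) (by rw [h1, zero_add]) (mul_left_cancel₀ e0 (by
      linear_combination c9 + (s * tau p) ^ 2 * c5 + tau p ^ 2 * hs + c6)) (by
    rw [zero_add, mul_left_comm, inv_mul_cancel₀ e0, mul_one]
    exact mul_left_cancel₀ hp0 (by linear_combination -c7 + (T p (m + 1 + 1)).det * c6)),
    c_m3 h, c_one, inv_mul_eq_iff_eq_mul₀ e0, x0, show (p : ℂ) = -(tau p * tau p) by rw [c6]; ring]
  field_simp
  linear_combination (x * w - y * z - z) * c ℂ (2 : ZMod p) * tau p ^ 2 * (1 - tau p ^ 2) * hs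

end Pool.Agent.H.MP_e449c6_nt
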